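import Pool.Agent.N236.RT.Stm

/-!
# Project RT: the Taylor expansion facts (TAY)
-/

set_option autoImplicit false

namespace Pool.Agent.N394.RT

open MvPolynomial
open Pool.Agent.N236.RT

/-- The exponent `(i, j)`. -/
noncomputable def ex (i j : ℕ) : Fin 2 →₀ ℕ := Finsupp.single 0 i + Finsupp.single 1 j

lemma ex_zero (i j : ℕ) : ex i j 0 = i := by simp [ex]

lemma ex_one (i j : ℕ) : ex i j 1 = j := by simp [ex]

lemma ex_self (m : Fin 2 →₀ ℕ) : ex (m 0) (m 1) = m := by
  ext i
  fin_cases i
  · exact ex_zero _ _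
  · exact ex_one _ _

lemma ex_add (i j k l : ℕ) : ex i j + ex k l = ex (i + k) (j + l) := by
  ext t
  fin_cases t
  · simp [ex]
  · simp [ex]

lemma ext2 {m n : Fin 2 →₀ ℕ} (h0 : m 0 = n 0) (h1 : m 1 = n 1) : m = n := by
  ext i
  fin_cases i
  · exact h0
  · exact h1

lemma add0 (m : Fin 2 →₀ ℕ) (a b : ℕ) : (m + ex a b) 0 = m 0 + a := by
  rw [Finsupp.add_apply, ex_zero]

lemma add1 (m : Fin 2 →₀ ℕ) (a b : ℕ) : (m + ex a b) 1 = m 1 + b := by
  rw [Finsupp.add_apply, ex_one]

/-- The coefficients of the divided derivative. -/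
lemma coeff_D {R : Type*} [CommSemiring R] (a b : ℕ) (P : Pol R) (m : Fin 2 →₀ ℕ) :
    coeff m (D a b P) =
      (((m 0 + a).choose a * (m 1 + b).choose b : ℕ) : R) * coeff (m + ex a b) P := by
  classical
  rw [D, coeff_sum]
  have hterm : ∀ n ∈ P.support, n ≠ m + ex a b →
      coeff m (monomial (Finsupp.single 0 (n 0 - a) + Finsupp.single 1 (n 1 - b))
        ((((n 0).choose a * (n 1).choose b : ℕ) : R) * coeff n P)) = 0 := by
    intro n _ hne
    rw [coeff_monomial]
    split_ifs with h
    · by_cases h0 : n 0 < a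
      · simp [Nat.choose_eq_zero_of_lt h0]
      by_cases h1 : n 1 < b
      · simp [Nat.choose_eq_zero_of_lt h1]
      exfalso
      apply hne
      have e0 : m 0 = n 0 - a := by rw [← h]; exact ex_zero _ _
      have e1 : m 1 = n 1 - b := by rw [← h]; exact ex_one _ _
      apply ext2
      · rw [add0]; omega
      · rw [add1]; omega
    · rfl
  by_cases hm : m + ex a b ∈ P.support
  · rw [Finset.sum_eq_single (m + ex a b) hterm (fun h => absurd hm h), coeff_monomial]
    rw [add0, add1, Nat.add_sub_cancel, Nat.add_sub_cancel]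
    exact if_pos (ex_self m)
  · rw [Finset.sum_eq_zero]
    · rw [notMem_support_iff.mp hm, mul_zero]
    · intro n hn
      exact hterm n hn (fun h => hm (h ▸ hn))

theorem t_tay5 : S_TAY5 := by
  intro R _ a b
  constructor
  · intro P Q
    ext m
    rw [coeff_add, coeff_D, coeff_D, coeff_D, coeff_add, mul_add]
  · intro c P
    ext m
    rw [coeff_C_mul, coeff_D, coeff_D, coeff_C_mul]
    ring

theorem t_tay2 : S_TAY2 := by
  intro R _ P a b a' b'
  ext m
  rw [coeff_C_mul, coeff_D, coeff_D, coeff_D, add0, add1, add_assoc m, ex_add]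
  have key : ∀ n c c' : ℕ, (n + c).choose c * (n + c + c').choose c' =
      (c + c').choose c * (n + (c + c')).choose (c + c') := by
    intro n c c'
    have h := Nat.choose_mul (n := n + (c + c')) (k := c + c') (s := c') (by omega)
    have e1 : n + (c + c') - c' = n + c := by omega
    have e2 : c + c' - c' = c := by omega
    have e3 : (c + c').choose c' = (c + c').choose c := by
      rw [Nat.choose_symm_add]
    rw [e1, e2, e3] at h
    have e4 : n + c + c' = n + (c + c') := by ring
    rw [e4]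
    linarith [h]
  rw [← mul_assoc, ← mul_assoc, ← Nat.cast_mul, ← Nat.cast_mul]
  congr 2
  calc _ = ((m 0 + a).choose a * (m 0 + a + a').choose a') *
        ((m 1 + b).choose b * (m 1 + b + b').choose b') := by ring
    _ = _ := by rw [key, key]; ring

theorem t_tay4 : S_TAY4 := by
  intro P A B M hP hM a b
  have hsup : ∀ m, coeff m (D a b P) ≠ 0 → m 0 + a ≤ A ∧ m 1 + b ≤ B := by
    intro m hm
    have h1 : coeff (m + ex a b) P ≠ 0 := by
      intro h0
      apply hm
      rw [coeff_D, h0, mul_zero]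
    have h2 := hP _ (mem_support_iff.mpr h1)
    rw [add0, add1] at h2
    exact h2
  constructor
  · intro m hm
    have := hsup m (mem_support_iff.mp hm)
    omega
  · intro m
    by_cases h0 : coeff m (D a b P) = 0
    · rw [h0, abs_zero]
      positivity
    · obtain ⟨h1, h2⟩ := hsup m h0
      rw [coeff_D, abs_mul]
      have e1 : (m 0 + a).choose a ≤ (A + B + 1) ^ a :=
        (Nat.choose_le_pow _ _).trans (Nat.pow_le_pow_left (by omega) _)
      have e2 : (m 1 + b).choose b ≤ (A + B + 1) ^ b :=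
        (Nat.choose_le_pow _ _).trans (Nat.pow_le_pow_left (by omega) _)
      have e3 : (m 0 + a).choose a * (m 1 + b).choose b ≤ (A + B + 1) ^ (a + b) := by
        rw [pow_add]
        exact Nat.mul_le_mul e1 e2
      have e4 : |(((m 0 + a).choose a * (m 1 + b).choose b : ℕ) : ℤ)| ≤
          (((A + B + 1) ^ (a + b) : ℕ) : ℤ) := by
        rw [Nat.abs_cast]
        exact_mod_cast e3
      rw [Nat.cast_mul]
      exact mul_le_mul e4 (hM _) (abs_nonneg _) (Int.natCast_nonneg _)

/-- The value at a monomial. -/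
lemma ev_monomial {R S : Type*} [CommSemiring R] [CommSemiring S] [Algebra R S] (u v : S)
    (m : Fin 2 →₀ ℕ) (c : R) :
    ev u v (monomial m c) = algebraMap R S c * (u ^ (m 0) * v ^ (m 1)) := by
  rw [ev, aeval_monomial, Finsupp.prod_fintype _ _ (fun i => pow_zero _), Fin.prod_univ_two]
  rfl

lemma ev_sum {R S : Type*} [CommSemiring R] [CommSemiring S] [Algebra R S] (u v : S)
    {ι : Type*} (s : Finset ι) (f : ι → Pol R) :
    ev u v (∑ i ∈ s, f i) = ∑ i ∈ s, ev u v (f i) := by
  rw [ev, map_sum]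
  rfl

/-- The binomial theorem with a longer range. -/
lemma binom {S : Type*} [CommSemiring S] (u h : S) (i A : ℕ) (hi : i ≤ A) :
    (u + h) ^ i = ∑ a ∈ Finset.range (A + 1), (i.choose a : S) * u ^ (i - a) * h ^ a := by
  rw [add_comm, add_pow]
  have hsub : Finset.range (i + 1) ⊆ Finset.range (A + 1) :=
    Finset.range_subset_range.mpr (by omega)
  rw [← Finset.sum_subset hsub]
  · apply Finset.sum_congr rfl
    intro a _
    ring
  · intro a _ ha
    rw [Finset.mem_range] at ha
    rw [Nat.choose_eq_zero_of_lt (by omega)]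
    simp

lemma ev_D {R S : Type*} [CommSemiring R] [CommSemiring S] [Algebra R S] (u v : S) (a b : ℕ)
    (P : Pol R) : ev u v (D a b P) = ∑ m ∈ P.support,
      algebraMap R S (coeff m P) * (((m 0).choose a : S) * u ^ (m 0 - a)) *
        (((m 1).choose b : S) * v ^ (m 1 - b)) := by
  rw [D, ev_sum]
  apply Finset.sum_congr rfl
  intro m _
  rw [ev_monomial]
  have e0 : (Finsupp.single (0 : Fin 2) (m 0 - a) + Finsupp.single 1 (m 1 - b) :
      Fin 2 →₀ ℕ) 0 = m 0 - a := ex_zero _ _
  have e1 : (Finsupp.single (0 : Fin 2) (m 0 - a) + Finsupp.single 1 (m 1 - b) :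
      Fin 2 →₀ ℕ) 1 = m 1 - b := ex_one _ _
  rw [e0, e1, map_mul, map_natCast, Nat.cast_mul]
  ring

lemma tay1 {R S : Type*} [CommSemiring R] [CommSemiring S] [Algebra R S] (A B : ℕ) (P : Pol R)
    (hP : Bd A B P) (u v h k : S) : ev (u + h) (v + k) P =
    ∑ a ∈ Finset.range (A + 1), ∑ b ∈ Finset.range (B + 1), ev u v (D a b P) * h ^ a * k ^ b := by
  have h1 : ev (u + h) (v + k) P = ∑ m ∈ P.support,
      algebraMap R S (coeff m P) * ((u + h) ^ (m 0) * (v + k) ^ (m 1)) := by
    conv_lhs => rw [← support_sum_monomial_coeff P]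
    rw [ev_sum]
    exact Finset.sum_congr rfl (fun m _ => ev_monomial _ _ _ _)
  rw [h1]
  have h2 : ∀ m ∈ P.support,
      algebraMap R S (coeff m P) * ((u + h) ^ (m 0) * (v + k) ^ (m 1)) =
      ∑ a ∈ Finset.range (A + 1), ∑ b ∈ Finset.range (B + 1),
        algebraMap R S (coeff m P) * (((m 0).choose a : S) * u ^ (m 0 - a)) *
        (((m 1).choose b : S) * v ^ (m 1 - b)) * h ^ a * k ^ b := by
    intro m hm
    rw [binom u h (m 0) A (hP m hm).1, binom v k (m 1) B (hP m hm).2, Finset.sum_mul_sum,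
      Finset.mul_sum]
    apply Finset.sum_congr rfl
    intro a _
    rw [Finset.mul_sum]
    apply Finset.sum_congr rfl
    intro b _
    ring
  rw [Finset.sum_congr rfl h2, Finset.sum_comm]
  apply Finset.sum_congr rfl
  intro a _
  rw [Finset.sum_comm]
  apply Finset.sum_congr rfl
  intro b _
  rw [ev_D, Finset.sum_mul, Finset.sum_mul]

theorem t_tay1 : S_TAY1 := by
  intro R S _ _ _ A B P hP u v h k
  exact tay1 A B P hP u v h k

/-- Every polynomial lies in a box with prescribed lower bounds of the sides. -/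
lemma exists_Bd {R : Type*} [CommSemiring R] (P : Pol R) (a b : ℕ) :
    ∃ A B, a ≤ A ∧ b ≤ B ∧ Bd A B P := by
  refine ⟨a + P.support.sup (fun m => m 0), b + P.support.sup (fun m => m 1), by omega,
    by omega, ?_⟩
  intro m hm
  have h0 : m 0 ≤ P.support.sup (fun m => m 0) :=
    Finset.le_sup (f := fun m : Fin 2 →₀ ℕ => m 0) hm
  have h1 : m 1 ≤ P.support.sup (fun m => m 1) :=
    Finset.le_sup (f := fun m : Fin 2 →₀ ℕ => m 1) hm
  omega

/-- The coefficients of the shifted polynomial. -/
lemma coeff_shift {R S : Type*} [CommSemiring R] [CommSemiring S] [Algebra R S] (P : Pol R)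
    (u v : S) (a b : ℕ) :
    coeff (ex a b) (ev (C u + X 0 : Pol S) (C v + X 1) P) = ev u v (D a b P) := by
  classical
  obtain ⟨A, B, hA, hB, hP⟩ := exists_Bd P a b
  rw [tay1 A B P hP, coeff_sum]
  have hC : ∀ a b : ℕ, ev (C u : Pol S) (C v) (D a b P) = C (ev u v (D a b P)) := by
    intro a b
    rw [ev_D, ev_D, map_sum]
    apply Finset.sum_congr rfl
    intro m _
    simp only [map_mul, map_pow, map_natCast]
    rw [IsScalarTower.algebraMap_apply R S (Pol S), MvPolynomial.algebraMap_eq]
  have hmon : ∀ (c : S) (i j : ℕ), C c * (X 0 : Pol S) ^ i * X 1 ^ j = monomial (ex i j) c := by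
    intro c i j
    rw [X_pow_eq_monomial, X_pow_eq_monomial, C_mul_monomial, monomial_mul, mul_one, mul_one]
    rfl
  simp only [coeff_sum, hC, hmon, coeff_monomial]
  rw [Finset.sum_eq_single a]
  · rw [Finset.sum_eq_single b]
    · simp
    · intro j _ hj
      rw [if_neg]
      intro h
      apply hj
      have := DFunLike.congr_fun h 1
      rwa [ex_one, ex_one] at this
    · intro h
      exact absurd (Finset.mem_range.mpr (by omega)) h
  · intro i _ hi
    apply Finset.sum_eq_zero
    intro j _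
    rw [if_neg]
    intro h
    apply hi
    have := DFunLike.congr_fun h 0
    rwa [ex_zero, ex_zero] at this
  · intro h
    exact absurd (Finset.mem_range.mpr (by omega)) h

/-- All coefficients of total degree less than `n` vanish. -/
def Lo {S : Type*} [CommSemiring S] (n : ℕ) (Q : Pol S) : Prop :=
  ∀ m : Fin 2 →₀ ℕ, m 0 + m 1 < n → coeff m Q = 0

lemma Lo_mul {S : Type*} [CommSemiring S] {n k : ℕ} {Q Q' : Pol S} (h : Lo n Q) (h' : Lo k Q') :
    Lo (n + k) (Q * Q') := by
  classical
  intro m hm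
  rw [coeff_mul]
  apply Finset.sum_eq_zero
  intro p hp
  replace hp : p.1 + p.2 = m := Finset.HasAntidiagonal.mem_antidiagonal.mp hp
  have e0 : p.1 0 + p.2 0 = m 0 := by rw [← hp]; rfl
  have e1 : p.1 1 + p.2 1 = m 1 := by rw [← hp]; rfl
  by_cases h1 : p.1 0 + p.1 1 < n
  · rw [h _ h1, zero_mul]
  · rw [h' p.2 (by omega), mul_zero]

lemma Lo_pow {S : Type*} [CommSemiring S] {Q : Pol S} (h : Lo 1 Q) (T : ℕ) : Lo T (Q ^ T) := by
  induction T with
  | zero => intro m hm; omega
  | succ T ih => rw [pow_succ]; exact Lo_mul ih h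

lemma tay3 {R S : Type*} [CommSemiring R] [CommSemiring S] [Algebra R S] (F G : Pol R)
    (u v : S) (T : ℕ) (hF : ev u v F = 0) : VO T u v (F ^ T * G) := by
  intro a b hab
  rw [← coeff_shift]
  have hmul : ev (C u + X 0 : Pol S) (C v + X 1) (F ^ T * G) =
      ev (C u + X 0 : Pol S) (C v + X 1) F ^ T * ev (C u + X 0 : Pol S) (C v + X 1) G := by
    rw [ev, map_mul, map_pow]
    rfl
  rw [hmul]
  have h1 : Lo 1 (ev (C u + X 0 : Pol S) (C v + X 1) F) := by
    intro m hm
    have hm0 : m = ex 0 0 := by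
      apply ext2
      · rw [ex_zero]; omega
      · rw [ex_one]; omega
    rw [hm0, coeff_shift]
    have hD : D 0 0 F = F := by
      ext n
      rw [coeff_D]
      have : n + ex 0 0 = n := by
        apply ext2
        · rw [add0]; omega
        · rw [add1]; omega
      rw [this]
      simp
    rw [hD, hF]
  have h2 : Lo (T + 0) (ev (C u + X 0 : Pol S) (C v + X 1) F ^ T *
      ev (C u + X 0 : Pol S) (C v + X 1) G) :=
    Lo_mul (Lo_pow h1 T) (fun m hm => by omega)
  apply h2
  rw [ex_zero, ex_one]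
  omega

theorem t_tay3 : S_TAY3 := by
  intro R S _ _ _ F G u v T hF
  exact tay3 F G u v T hF

end Pool.Agent.N394.RT
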